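import Pool.Agent.Q18.CgrOdd
import Pool.Agent.Q18.CgrTwo

/-!
MP_b62331_al, Q1: for every prime `p` there is a subgroup-closed class of finite groups such that
in every `p`-group every maximal normal subgroup in the class is a maximal subgroup in the class,
while some `p`-group fails the congruence condition (A).
-/

namespace Pool.Agent.Results.MP_b62331_al.NoConverse

/-- A class of finite groups closed under isomorphism and under taking subgroups. -/
structure IsSubgroupClosedClass (C : ∀ (Y : Type) [Group Y], Prop) : Prop where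
  finite : ∀ (Y : Type) [Group Y], C Y → Finite Y
  iso : ∀ (Y Z : Type) [Group Y] [Group Z], Nonempty (Y ≃* Z) → C Y → C Z
  sub : ∀ (Y : Type) [Group Y] (S : Subgroup Y), C Y → C S

/-- `H` is a maximal `C`-subgroup of `G`. -/
def IsMaxSub (C : ∀ (Y : Type) [Group Y], Prop) {G : Type} [Group G] (H : Subgroup G) : Prop :=
  C H ∧ ∀ K : Subgroup G, C K → ¬ H < K

/-- `H` is a maximal normal `C`-subgroup of `G`. -/
def IsMaxNormalSub (C : ∀ (Y : Type) [Group Y], Prop) {G : Type} [Group G] (H : Subgroup G) :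
    Prop :=
  H.Normal ∧ C H ∧ ∀ K : Subgroup G, K.Normal → C K → ¬ H < K

/-- `𝔞_G(H)`: the number of `C`-subgroups `K > H` of `G` with `|K : H| = p`. -/
noncomputable def aNum (p : ℕ) (C : ∀ (Y : Type) [Group Y], Prop) {G : Type} [Group G]
    (H : Subgroup G) : ℕ :=
  Nat.card {K : Subgroup G // H < K ∧ C K ∧ H.relIndex K = p}

/-- Condition (A): `𝔞_G(H) = 0` or `𝔞_G(H) ≡ 1 (mod p)` for every `C`-subgroup `H` of `G`. -/
def ConditionA (p : ℕ) (C : ∀ (Y : Type) [Group Y], Prop) (G : Type) [Group G] : Prop :=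
  ∀ H : Subgroup G, C H → aNum p C H = 0 ∨ aNum p C H ≡ 1 [MOD p]

open Q18.Cgr

theorem main (p : ℕ) [hp : Fact p.Prime] (X : Type) [Group X] (hX : Good p X) :
    ∃ C : ∀ (Y : Type) [Group Y], Prop, IsSubgroupClosedClass C ∧
      (∀ (G : Type) [Group G] [Finite G], IsPGroup p G → ∀ H : Subgroup G,
        IsMaxNormalSub C H → IsMaxSub C H) ∧
      ∃ (G : Type) (_ : Group G), Finite G ∧ IsPGroup p G ∧ ¬ ConditionA p C G := by
  refine ⟨fun Y _ => Cls p X Y, ⟨?_, ?_, ?_⟩, ?_, ?_⟩
  · intro Y _ h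
    exact h.1
  · rintro Y Z _ _ ⟨e⟩ h
    refine ⟨?_, ?_, ?_⟩
    · have := h.1
      exact Finite.of_equiv Y e.toEquiv
    · rw [← Nat.card_congr e.toEquiv]
      exact h.2.1
    · rintro ⟨f⟩
      exact h.2.2 ⟨e.trans f⟩
  · intro Y _ S h
    have hf := h.1
    have hle : Nat.card S ≤ Nat.card Y := Nat.card_le_card_of_injective _ Subtype.val_injective
    refine ⟨inferInstance, hle.trans h.2.1, ?_⟩
    rintro ⟨f⟩
    have h1 : Nat.card S = p ^ 6 := by rw [← hX.card]; exact Nat.card_congr f.toEquiv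
    have h2 : S = ⊤ := by
      apply Subgroup.eq_top_of_card_eq
      exact le_antisymm hle (h1 ▸ h.2.1)
    subst h2
    exact h.2.2 ⟨Subgroup.topEquiv.symm.trans f⟩
  · intro G _ _ hG H hH
    exact ⟨hH.2.1, part1 hX hG H hH.1 hH.2.2⟩
  · obtain ⟨L, _, hL, hLp, H, hH, h0, h1⟩ := part2 hX
    refine ⟨L, inferInstance, hL, hLp, fun h => ?_⟩
    rcases h H hH with h2 | h2
    · exact h0 h2
    · exact h1 h2

/-- For every prime `p` the converse fails: there is a subgroup-closed class `C` such that in every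
finite `p`-group each maximal normal `C`-subgroup is a maximal `C`-subgroup, and yet some finite
`p`-group does not satisfy the congruence condition (A) for `C`. -/
theorem result : ∀ p : ℕ, p.Prime → ∃ C : ∀ (Y : Type) [Group Y], Prop,
    IsSubgroupClosedClass C ∧
      (∀ (G : Type) [Group G] [Finite G], IsPGroup p G → ∀ H : Subgroup G,
        IsMaxNormalSub C H → IsMaxSub C H) ∧
      ∃ (G : Type) (_ : Group G), Finite G ∧ IsPGroup p G ∧ ¬ ConditionA p C G := by
  intro p hp
  have : Fact p.Prime := ⟨hp⟩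
  by_cases hp2 : p = 2
  · subst hp2
    exact main 2 X2 X2.good
  · exact main p (Xp p) (Xp.good hp2)

end Pool.Agent.Results.MP_b62331_al.NoConverse
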